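import Pool.Agent.Results.MP_e9eb55_nt.AlmostAllN
import Pool.Agent.U513.AP.Log

/-!
# The diagonal Möbius-twisted Elliott-Halberstam bounds near the numerators and denominators of Diophantine approximations

Let `α ∈ ℝ ^ d` and consider all its approximations `(k, u_1, …, u_d)` with `|k α_i - γ_i - u_i| ≤ k ^ (-τ)`; for `d = 1`, `γ = 0`,
`τ = 1` these contain the denominators and numerators of all the convergents of the continued fraction of `α`, for `τ = 1 / d` all
the best simultaneous approximations, and for larger `τ` the very good approximations of the very well approximable `α`, which form a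
set of dimension `s = (d + 1) / (1 + τ) < d` and of infinite Hausdorff measure in this dimension (Jarník). We show that for all `α`
outside of a set of Hausdorff measure ZERO in the dimension `s`, the bounds of the problem, at all levels `N ^ θ`, `θ < 1`, and even at
the levels `N exp (- (log N) ^ κ)`, `κ > 0`, hold for ALL the natural numbers `N` at a distance of at most `(log k) ^ W` from
`c + a k + b_1 u_1 + ⋯ + b_d u_d`, for every integral affine form with `(a, b) ≠ 0`, every `W`, and all these approximations with large `k`.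

Proof. The starting library has one set of exceptional `N` with at most `X / (log X) ^ A` elements `≤ X` for all `A`. The integral
vectors `(k, u)` with `k ≈ X` and a value of the form near an exceptional `N` are counted, and the sets of the `α` approximated by
them, cubes of side `2 X ^ (- 1 - τ)`, are used as the covers in the definition of the Hausdorff measure (`U513/AP/Log`). The numbers
`k`, `u` have the density zero for a given `α`, so that the bound for the number of exceptional `N` alone does not say anything about them.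
-/

set_option autoImplicit false

open Finset Filter MeasureTheory

namespace Pool.Agent.Results.MP_e9eb55_nt.Approximations

/-- the first weight, `μ(m)` -/
noncomputable def g₁ (m : ℕ) : ℝ := ((ArithmeticFunction.moebius m : ℤ) : ℝ)

/-- the second weight, `μ(m) log m` -/
noncomputable def g₂ (m : ℕ) : ℝ := ((ArithmeticFunction.moebius m : ℤ) : ℝ) * Real.log m

/-- the sum of `Λ(n) g(N - n)` over `1 ≤ n < N` with `n ≡ N (mod q)` -/
noncomputable def twistedSum (g : ℕ → ℝ) (q N : ℕ) : ℝ :=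
  ∑ n ∈ (Finset.Ico 1 N).filter (fun n => n ≡ N [MOD q]), ArithmeticFunction.vonMangoldt n * g (N - n)

/-- the sum over the moduli `1 ≤ q ≤ Q` coprime to `N` of the absolute value of
`twistedSum g q N - (1 / φ(q)) * twistedSum g 1 N` -/
noncomputable def disc (g : ℕ → ℝ) (N : ℕ) (Q : ℝ) : ℝ :=
  ∑ q ∈ (Finset.Icc 1 ⌊Q⌋₊).filter (fun q => q.Coprime N), |twistedSum g q N - 1 / (Nat.totient q : ℝ) * twistedSum g 1 N|

/-- The bounds at `N`, with the saving `(log N) ^ A`, for both weights, at all the levels `N ^ θ` and `N exp (-(log N) ^ κ)` and with all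
the `A` for which the thresholds `N₀ θ A`, `N₁ κ A` are at most `N`. -/
def Bounds (N₀ N₁ : ℝ → ℝ → ℕ) (N : ℕ) : Prop :=
  (∀ θ A : ℝ, 0 < θ → θ < 1 → 0 < A → N₀ θ A ≤ N → ∀ g : ℕ → ℝ, (g = g₁ ∨ g = g₂) →
    disc g N ((N : ℝ) ^ θ) ≤ N * Real.log N ^ (-A)) ∧
  ∀ κ A : ℝ, 0 < κ → 0 < A → N₁ κ A ≤ N → ∀ g : ℕ → ℝ, (g = g₁ ∨ g = g₂) →
    disc g N (N * Real.exp (-(Real.log N) ^ κ)) ≤ N * Real.log N ^ (-A)

/-- `(k, u)` is an approximation of `α` of exponent `τ` and shift `γ`: `|k α_i - γ_i - u_i| ≤ k ^ (-τ)` for all `i`. -/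
def Approx {d : ℕ} (τ : ℝ) (γ α : Fin d → ℝ) (k : ℕ) (u : Fin d → ℤ) : Prop :=
  ∀ i, |(k : ℝ) * α i - γ i - u i| ≤ (k : ℝ) ^ (-τ)

/-- **The diagonal Elliott-Halberstam bounds of all levels near the approximations of almost all points.** There are thresholds `N₀`, `N₁`
such that for all `d`, `τ ≥ 0` and `γ ∈ ℝ ^ d` there is a set `E` of Hausdorff measure zero in the dimension `(d + 1) / (1 + τ)`
(of Lebesgue measure zero if `d τ ≥ 1`), such that for all `α ∉ E`, all `W` and all the integral affine forms `c + a x + ∑ b_i y_i` with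
`(a, b) ≠ 0`, for all large `k` and all integral `u` with `|k α_i - γ_i - u_i| ≤ k ^ (-τ)`: ALL the natural numbers `N ≥ 1` with
`|N - (c + a k + ∑ b_i u_i)| ≤ (log k) ^ W` satisfy the bounds. -/
theorem result : ∃ N₀ N₁ : ℝ → ℝ → ℕ, ∀ (d : ℕ) (τ : ℝ) (γ : Fin d → ℝ), 0 ≤ τ →
    ∃ E : Set (Fin d → ℝ), μH[((d : ℝ) + 1) / (1 + τ)] E = 0 ∧ (1 ≤ d * τ → volume E = 0) ∧
      ∀ α, α ∉ E → ∀ (W : ℕ) (c a : ℤ) (b : Fin d → ℤ), ¬ (a = 0 ∧ b = 0) →
        ∀ᶠ k : ℕ in atTop, ∀ u : Fin d → ℤ, Approx τ γ α k u → ∀ N : ℕ, 1 ≤ N →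
          |(N : ℝ) - (c + a * k + ∑ i, b i * u i : ℤ)| ≤ Real.log k ^ W → Bounds N₀ N₁ N := by
  classical
  obtain ⟨B, hB, h0, h1⟩ := AlmostAllN.result
  have h0' : ∀ θ A : ℝ, ∃ N₀ : ℕ, 0 < θ → θ < 1 → 0 < A → ∀ N : ℕ, N₀ ≤ N → N ∉ B →
      ∀ g : ℕ → ℝ, (g = AlmostAllN.g₁ ∨ g = AlmostAllN.g₂) →
        AlmostAllN.disc g N ((N : ℝ) ^ θ) ≤ N * Real.log N ^ (-A) := by
    intro θ A
    by_cases hc : 0 < θ ∧ θ < 1 ∧ 0 < A
    · obtain ⟨N₀, h⟩ := h0 θ hc.1 hc.2.1 A hc.2.2
      exact ⟨N₀, fun _ _ _ => h⟩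
    · exact ⟨0, fun a1 a2 a3 => absurd ⟨a1, a2, a3⟩ hc⟩
  have h1' : ∀ κ A : ℝ, ∃ N₀ : ℕ, 0 < κ → 0 < A → ∀ N : ℕ, N₀ ≤ N → N ∉ B →
      ∀ g : ℕ → ℝ, (g = AlmostAllN.g₁ ∨ g = AlmostAllN.g₂) →
        AlmostAllN.disc g N (N * Real.exp (-(Real.log N) ^ κ)) ≤ N * Real.log N ^ (-A) := by
    intro κ A
    by_cases hc : 0 < κ ∧ 0 < A
    · obtain ⟨N₀, h⟩ := h1 κ hc.1 A hc.2
      exact ⟨N₀, fun _ _ => h⟩
    · exact ⟨0, fun a1 a2 => absurd ⟨a1, a2⟩ hc⟩
  choose N₀ hN₀ using h0'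
  choose N₁ hN₁ using h1'
  have hF : ∀ A : ℕ, Pool.Agent.U513.AP.FewLog B A := by
    intro A
    obtain ⟨X₀, hX₀⟩ := hB (A : ℝ)
    refine Pool.Agent.U513.AP.fewLog_of ⟨X₀, fun X hX => ?_⟩
    have h2 := hX₀ X hX
    rw [Real.rpow_natCast] at h2
    refine le_trans (Nat.cast_le.2 ?_) h2
    rw [← Set.ncard_coe_finset]
    refine Set.ncard_le_ncard ?_ (Finset.finite_toSet _)
    rintro b ⟨hb, hb1, hb2⟩
    rw [mem_coe, mem_filter, mem_Icc]
    exact ⟨⟨hb1, hb2⟩, hb⟩
  refine ⟨N₀, N₁, fun d τ γ hτ => ?_⟩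
  obtain ⟨E, e1, e2, e3⟩ := Pool.Agent.U513.AP.null_forms_all hF hτ γ
  refine ⟨E, e1, e2, fun α hα W c a b hab => ?_⟩
  filter_upwards [e3 α hα W c a b hab] with k hk u hu N hN hle
  have hNB : N ∉ B := fun hmem => hk u hu N hmem hN hle
  exact ⟨fun θ A a1 a2 a3 a4 g hg => hN₀ θ A a1 a2 a3 N a4 hNB g hg,
    fun κ A a1 a2 a4 g hg => hN₁ κ A a1 a2 N a4 hNB g hg⟩

end Pool.Agent.Results.MP_e9eb55_nt.Approximations
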