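import Pool.Agent.U108.DP.E1
import Pool.Agent.U856.DE.D14

/-!
# Moebius-twisted Elliott-Halberstam for almost all values of polynomials in several variables at integers with restricted digits

Let `F` be any polynomial of total degree `d ≥ 2` with integer coefficients, in any number of variables, and let the variables
run through the integers `< b ^ k` whose digits in base `b` are restricted to arbitrary sets of at least two digits (so that the
number of the tuples can be as small as `2 ^ k` for `N = b ^ (d k)`, an arbitrarily small power of `N`). For almost all choices of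
the variables and `n = F(...) + h`, the Moebius-twisted discrepancies `D_g(n)` of the problem, without the absolute values, with
arbitrary weights on the moduli which are fixed in advance, are small at all levels up to `n exp (-(log n) ^ c)`.

Definitions used:
* from `Pool.Agent.TH872.GQ` (starting files): `S b E k`: the integers `0 ≤ n < b ^ k` whose `i`-th digit in base `b` lies
  in `E i`, for all `i < k`;
* from `Pool.Agent.U108.DP`: `Bo b k D`: the tuples `n` of natural numbers with `n j ∈ S b (D j) k` for all `j`;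
  `val F n`: the value of the polynomial `F` at the tuple `n`.

Method: the energy theorem `Pool.Agent.U108.DP.poly_energy` (a multilinear inequality of Weyl type for disjoint windows of
digits shows that the values have an additive energy of high order which is minimal up to a constant) and the theorem
of helper856 on families of nearly minimal energy (`Pool.Agent.U856.DE.fam_pre`).
-/

set_option autoImplicit false

namespace Pool.Agent.Results.MP_e9eb55_nt.DigitPolynomials

open Finset Pool.Agent.U108.DP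
open Pool.Agent.TH212.EH (En)

/-- the first weight, `μ(m)` -/
noncomputable def g₁ (m : ℕ) : ℝ := ((ArithmeticFunction.moebius m : ℤ) : ℝ)

/-- the second weight, `μ(m) log m` -/
noncomputable def g₂ (m : ℕ) : ℝ := ((ArithmeticFunction.moebius m : ℤ) : ℝ) * Real.log m

/-- the sum of `Λ(n) g(N - n)` over `1 ≤ n < N` with `n ≡ N (mod q)` -/
noncomputable def twistedSum (g : ℕ → ℝ) (q N : ℕ) : ℝ :=
  ∑ n ∈ (Finset.Ico 1 N).filter (fun n => n ≡ N [MOD q]), ArithmeticFunction.vonMangoldt n * g (N - n)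

/-- the discrepancies with the weights `lam q`, without absolute values -/
noncomputable def wdisc (g lam : ℕ → ℝ) (Q N : ℕ) : ℝ :=
  ∑ q ∈ (Finset.Icc 1 Q).filter (fun q => q.Coprime N),
    lam q * (twistedSum g q N - 1 / (Nat.totient q : ℝ) * twistedSum g 1 N)

open Classical in
/-- For all but few members of the finite family `v` the discrepancies with the weights `lam`, all moduli `q ≤ Q`, both weights
`g` and all positive integers `v i + h`, `h ∈ H`, are small: for all systems of at most `(log N) ^ W` shifts and all weights with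
`|lam q| ≤ (log N) ^ T τ(q) ^ T`, where `Q ≤ N exp (-(log N) ^ κ)`. -/
def AlmostAll (κ : ℝ) (B T U W N : ℕ) {ι : Type} [Fintype ι] (v : ι → ℤ) : Prop :=
  ∀ H : Finset ℤ, (H.card : ℝ) ≤ Real.log N ^ W → (∀ h ∈ H, |h| ≤ B * N) →
    ∀ lam : ℕ → ℝ, (∀ q, |lam q| ≤ Real.log N ^ T * (q.divisors.card : ℝ) ^ T) → ∀ Q : ℕ,
    (Q : ℝ) ≤ N * Real.exp (-(Real.log N) ^ κ) →
    ((univ.filter (fun i : ι => ∃ h ∈ H, 0 < v i + h ∧ ∃ g : ℕ → ℝ, (g = g₁ ∨ g = g₂) ∧
      (N : ℝ) / Real.log N ^ U < |wdisc g lam Q (v i + h).toNat|)).card : ℝ) ≤ Fintype.card ι / Real.log N ^ U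

/-- The sets `D j i`, `i < k`, are sets of at least two digits in base `b`. -/
def Digits {J : Type} (b k : ℕ) (D : J → ℕ → Finset ℕ) : Prop := ∀ j, ∀ i < k, D j i ⊆ range b ∧ 2 ≤ (D j i).card

lemma family (κ : ℝ) (hκ : 0 < κ) (hκ1 : κ ≤ 1) (b r B B' T U W : ℕ) (hb : 2 ≤ b) (hB : B ≤ B') :
    ∃ k₀ : ℕ, ∀ k : ℕ, k₀ ≤ k → ∀ (J : Type) [Fintype J] [DecidableEq J] (D : J → ℕ → Finset ℕ), Digits b k D →
      ∀ F : MvPolynomial J ℤ, F.totalDegree ≤ r + 2 →
      (∃ m : J →₀ ℕ, m.degree = r + 2 ∧ F.coeff m ≠ 0 ∧ |F.coeff m| ≤ (k : ℤ) ^ B) →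
      ∀ c : ℤ, (∀ n ∈ Bo b k D, |c + val F n| ≤ B' * (b : ℤ) ^ ((r + 2) * k)) →
      AlmostAll κ B T U W (b ^ ((r + 2) * k)) (fun n : {n : J → ℕ // n ∈ Bo b k D} => c + val F n) := by
  classical
  obtain ⟨h, k₁, hh, hhyp⟩ := hyp1 b r B hb
  obtain ⟨N₀, hN₀⟩ := Pool.Agent.U856.DE.fam_pre κ hκ hκ1 h B' (2 * B + 1) T U W
  refine ⟨k₁ + N₀, fun k hk J _ _ D hD F hF hm c hc => ?_⟩
  obtain ⟨m, hm1, hm2, hm3⟩ := hm
  obtain ⟨⟨hl1, hl2, hkN⟩, hEn⟩ := hhyp k (by omega)
  have h1 := hEn J D hD F hF m hm1 hm2 hm3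
  intro H hH hHB lam hlam Q hQ
  refine hN₀ (b ^ ((r + 2) * k)) (by omega) {n : J → ℕ // n ∈ Bo b k D} (fun n => c + val F n) ?_ ?_ H hH ?_ lam hlam Q hQ
  · intro n
    have := hc n n.2
    push_cast
    exact this
  · have e : En h (fun n : {n : J → ℕ // n ∈ Bo b k D} => c + val F n) = En h (fun n : {n : J → ℕ // n ∈ Bo b k D} => val F n) := by
      have := Pool.Agent.R459.En_shift h (fun n : {n : J → ℕ // n ∈ Bo b k D} => val F n) c
      simp only [add_comm c]
      exact this
    rw [e]
    exact h1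
  · intro τ hτ
    refine (hHB τ hτ).trans ?_
    exact mul_le_mul_of_nonneg_right (by exact_mod_cast hB) (Int.natCast_nonneg _)

/-- **Moebius-twisted Elliott-Halberstam at almost all values of polynomials at integers with restricted digits.**
Let `b ≥ 2`, `d ≥ 2`, `0 < κ ≤ 1`, `B`, `T`, `U`, `W` be fixed.

(1) For all large `k`, `N = b ^ (d k)`, the following holds. Let `J` be an arbitrary finite set of
variables, let `D j i` (`j ∈ J`, `i < k`) be arbitrary sets of at least two digits in base `b`, and let `F` be an arbitrary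
polynomial with integer coefficients in the variables `x_j`, `j ∈ J`, of total degree `d`, such that at least one of the
nonzero coefficients of degree `d` is at most `k ^ B` in absolute value, and the values of `F` on the box
`Bo b k D` are at most `B N` in absolute value. Then the integers `F(n)`, where `n` runs through the tuples of integers
`0 ≤ n_j < b ^ k` with the digits number `i` in `D j i`, satisfy `AlmostAll`.

(2) For a fixed polynomial `F` of total degree at least two this holds without any further condition, uniformly for all the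
families `c + F(n)`, `|c| ≤ B N`, `N = b ^ (k deg F)`. -/
theorem result (b d B T U W : ℕ) (hb : 2 ≤ b) (hd : 2 ≤ d) (κ : ℝ) (hκ : 0 < κ) (hκ1 : κ ≤ 1) :
    (∃ k₀ : ℕ, ∀ k : ℕ, k₀ ≤ k → ∀ (J : Type) [Fintype J] [DecidableEq J] (D : J → ℕ → Finset ℕ), Digits b k D →
      ∀ F : MvPolynomial J ℤ, F.totalDegree = d →
      (∃ m : J →₀ ℕ, m.degree = d ∧ F.coeff m ≠ 0 ∧ |F.coeff m| ≤ (k : ℤ) ^ B) →
      (∀ n ∈ Bo b k D, |val F n| ≤ B * (b : ℤ) ^ (d * k)) →
      AlmostAll κ B T U W (b ^ (d * k)) (fun n : {n : J → ℕ // n ∈ Bo b k D} => val F n)) ∧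
    (∀ (J : Type) [Fintype J] [DecidableEq J] (F : MvPolynomial J ℤ), 2 ≤ F.totalDegree →
      ∃ k₀ : ℕ, ∀ k : ℕ, k₀ ≤ k → ∀ D : J → ℕ → Finset ℕ, Digits b k D →
      ∀ c : ℤ, |c| ≤ B * (b : ℤ) ^ (F.totalDegree * k) →
      AlmostAll κ B T U W (b ^ (F.totalDegree * k)) (fun n : {n : J → ℕ // n ∈ Bo b k D} => c + val F n)) := by
  classical
  refine ⟨?_, ?_⟩
  · obtain ⟨r, rfl⟩ : ∃ r, d = r + 2 := ⟨d - 2, by omega⟩
    obtain ⟨k₀, h⟩ := family κ hκ hκ1 b r B B T U W hb le_rfl
    refine ⟨k₀, fun k hk J _ _ D hD F hF hm hv => ?_⟩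
    have h3 := h k hk J D hD F hF.le hm 0 (by
      intro n hn
      rw [zero_add]
      exact hv n hn)
    simp only [zero_add] at h3
    exact h3
  · intro J _ _ F hF
    obtain ⟨r, hr⟩ : ∃ r, F.totalDegree = r + 2 := ⟨F.totalDegree - 2, by omega⟩
    have hF0 : F ≠ 0 := by
      rintro rfl
      simp at hF
    obtain ⟨m, hm1, hm2⟩ := exists_top F hF0
    obtain ⟨B₁, hB₁⟩ := eval_le F (r + 2) hr.le
    obtain ⟨k₀, h0⟩ := family κ hκ hκ1 b r (B + 1) (B + 1 + B₁) T U W hb (by omega)
    refine ⟨k₀ + (F.coeff m).natAbs + 1, fun k hk D hD c hc => ?_⟩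
    rw [hr] at hc ⊢
    have h3 := h0 k (by omega) J D hD F hr.le ⟨m, by rw [hm1, hr], hm2, ?_⟩ c ?_
    · intro H hH hHB lam hlam Q hQ
      refine h3 H hH (fun τ hτ => (hHB τ hτ).trans ?_) lam hlam Q hQ
      exact mul_le_mul_of_nonneg_right (by push_cast; linarith) (Int.natCast_nonneg _)
    · rw [Int.abs_eq_natAbs]
      have h6 : (F.coeff m).natAbs ≤ k := by omega
      have h7 : k ≤ k ^ (B + 1) := Nat.le_self_pow (by omega) k
      exact_mod_cast h6.trans h7
    · intro n hn
      have h1 := hB₁ b k n (by omega) (fun j => Bo_lt b k D n hn j)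
      have h3 : (0 : ℤ) < (b : ℤ) ^ ((r + 2) * k) := by positivity
      refine (abs_add_le _ _).trans ?_
      unfold Pool.Agent.U108.DP.val
      push_cast
      push_cast at h1
      nlinarith

end Pool.Agent.Results.MP_e9eb55_nt.DigitPolynomials
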