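import Pool.Agent.U108.ML.V
import Pool.Agent.U856.DE.D14

/-!
# Moebius-twisted Elliott-Halberstam near products of thin families plus arbitrary functions of fewer coordinates, and at
determinants

Let `u_l : I_l → ℤ`, `1 ≤ l ≤ s`, be `s ≥ 2` arbitrary finite families of integers, `|u_l| ≤ N_l`, `N_1 ⋯ N_s = P`, whose
additive energy of some order is minimal up to powers of `log P` (the primes, the powers of a fixed exponent, the values of
a polynomial at integers or at primes, any subset of `[1, N_l]` with at least `N_l / (log P) ^ C` elements, ...). For almost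
all `j ∈ I_1 × ⋯ × I_s` and `n = v(j) + h`,

  `v(j) = c u_1(j_1) ⋯ u_s(j_s) + R_1(j) + ⋯ + R_s(j)`

(where `R_l` is an ARBITRARY function with integral values which does not depend on the `l`-th coordinate), or `v(j)` = the
determinant of the `s × s` matrix with the diagonal entries `u_l(j_l)` and ARBITRARY fixed integers off the diagonal, the
Moebius-twisted discrepancies `D_g(n)` of the problem, without the absolute values, with arbitrary weights on the moduli
which are fixed in advance, are small at all levels up to `P exp (-(log P) ^ c)`.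

Definitions used from `Pool.Agent.U108.ML.V` (own): `energy h u`: the number of solutions of
`u(x_1) + ⋯ + u(x_h) = u(y_1) + ⋯ + u(y_h)`; `Thin h C P N u`: `|u| ≤ N` and `energy h u * N ≤ (log P) ^ C (#I) ^ (2 h)`;
`Multilinear B P u v`: `v` is of the form described above, `0 < |c| ≤ (log P) ^ B`.

Method: the energy theorem for multilinear values (`Pool.Agent.U108.ML.energy`) and the theorem of helper856 on families of
nearly minimal energy (`Pool.Agent.U856.DE.fam_pre`).
-/

set_option autoImplicit false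

namespace Pool.Agent.Results.MP_e9eb55_nt.MultilinearValues

open Finset
open Pool.Agent.U108.ML.V (energy Thin Multilinear)

/-- the first weight, `μ(m)` -/
noncomputable def g₁ (m : ℕ) : ℝ := ((ArithmeticFunction.moebius m : ℤ) : ℝ)

/-- the second weight, `μ(m) log m` -/
noncomputable def g₂ (m : ℕ) : ℝ := ((ArithmeticFunction.moebius m : ℤ) : ℝ) * Real.log m

/-- the sum of `Λ(n) g(N - n)` over `1 ≤ n < N` with `n ≡ N (mod q)` -/
noncomputable def twistedSum (g : ℕ → ℝ) (q N : ℕ) : ℝ :=
  ∑ n ∈ (Finset.Ico 1 N).filter (fun n => n ≡ N [MOD q]), ArithmeticFunction.vonMangoldt n * g (N - n)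

/-- the discrepancies with the weights `lam q`, without absolute values -/
noncomputable def wdisc (g lam : ℕ → ℝ) (Q N : ℕ) : ℝ :=
  ∑ q ∈ (Finset.Icc 1 Q).filter (fun q => q.Coprime N),
    lam q * (twistedSum g q N - 1 / (Nat.totient q : ℝ) * twistedSum g 1 N)

open Classical in
/-- For all but few members of the finite family `v` the discrepancies with the weights `lam`, all moduli `q ≤ Q`, both weights
`g` and all positive integers `v i + h`, `h ∈ H`, are small: for all systems of at most `(log N) ^ W` shifts and all weights with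
`|lam q| ≤ (log N) ^ T τ(q) ^ T`, where `Q ≤ N exp (-(log N) ^ κ)`. -/
def AlmostAll (κ : ℝ) (B T U W N : ℕ) {ι : Type} [Fintype ι] (v : ι → ℤ) : Prop :=
  ∀ H : Finset ℤ, (H.card : ℝ) ≤ Real.log N ^ W → (∀ h ∈ H, |h| ≤ B * N) →
    ∀ lam : ℕ → ℝ, (∀ q, |lam q| ≤ Real.log N ^ T * (q.divisors.card : ℝ) ^ T) → ∀ Q : ℕ,
    (Q : ℝ) ≤ N * Real.exp (-(Real.log N) ^ κ) →
    ((univ.filter (fun i : ι => ∃ h ∈ H, 0 < v i + h ∧ ∃ g : ℕ → ℝ, (g = g₁ ∨ g = g₂) ∧
      (N : ℝ) / Real.log N ^ U < |wdisc g lam Q (v i + h).toNat|)).card : ℝ) ≤ Fintype.card ι / Real.log N ^ U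

/-- **Moebius-twisted Elliott-Halberstam at almost all multilinear values of thin families.** Let `h ≥ 1`, `s ≥ 2`, `m`, `B`,
`C`, `T`, `U`, `W` and `0 < κ ≤ 1` be fixed and let `P` be large. Let `P = N_1 ⋯ N_s` with `N_l ^ m ≥ P`, let `u_l : I_l → ℤ`
be finite families with `Thin h C P N_l`, and let `v` be a function on `∏_l I_l` with `Multilinear B P u v` and `|v| ≤ B P`.
Then the family `v` satisfies `AlmostAll κ B T U W P`. -/
theorem result (h s m B C T U W : ℕ) (hh : 1 ≤ h) (hs : 2 ≤ s) (κ : ℝ) (hκ : 0 < κ) (hκ1 : κ ≤ 1) :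
    ∃ P₀ : ℕ, ∀ (P : ℕ) (N : Fin s → ℕ), P₀ ≤ P → ∏ l, N l = P → (∀ l, P ≤ N l ^ m) →
      ∀ (I : Fin s → Type) [∀ l, Fintype (I l)] (u : ∀ l, I l → ℤ), (∀ l, Thin h C P (N l) (u l)) →
      ∀ v : (∀ l, I l) → ℤ, Multilinear B P u v → (∀ j, |v j| ≤ B * P) → AlmostAll κ B T U W P v := by
  classical
  obtain ⟨h', C', P₁, hh', _, h1⟩ := Pool.Agent.U108.ML.V.energy_val h s m B C hh hs
  obtain ⟨N₀, hN₀⟩ := Pool.Agent.U856.DE.fam_pre κ hκ hκ1 h' B C' T U W
  refine ⟨P₁ + N₀, fun P N hP hNP hNm I _ u hu v hv hvb => ?_⟩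
  have h2 := h1 P N (by omega) hNP hNm I u hu v hv
  intro H hH hHB lam hlam Q hQ
  exact hN₀ P (by omega) (∀ l, I l) v hvb h2 H hH hHB lam hlam Q hQ

end Pool.Agent.Results.MP_e9eb55_nt.MultilinearValues
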