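import Mathlib
import Pool.Agent.U856.DE.D11

/-!
# The diagonal Moebius-twisted Elliott-Halberstam bound for all integers near almost all values of a polynomial

With absolute values, exactly as in the problem: for every integer polynomial `f` of degree `d ≥ 2` and every level
`θ < 1 / d` the bound `D_g(N; θ) ≤ N (log N) ^ (-A)` holds, for both weights, for ALL natural numbers `N` with
`|N - (c + f(m))| ≤ (log x) ^ W`, for all `m ≤ x` but `x / (log x) ^ U`, uniformly in the translation `c`.

Proof. Let `v(m) = c + f(m)`. For a modulus `q` the sum of `Λ(n) g(v(m) - n)` over `n ≡ v(m) (mod q)` is a convolution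
at `(v(m) - b) / q`, `b = v(m) mod q`. Summed over `m` with signs it is the mean of `Ĝ(t) ∑_a Λ_a(t) S_a(t)`, where `a` runs over the
classes of `m` modulo `q`, `Ĝ` is the exponential sum of `g(q r)`, small by the theorem of Davenport, and `S_a` the exponential
sum of the values of `(v(m) - b) / q`, `m ≡ a`. The inequalities of Cauchy and Hölder reduce the estimate, WITHOUT any loss of
powers of `q`, to the number of solutions of `f(m_1) - f(m_1') + ... + f(m_p) - f(m_p') = 0` with `m_i ≡ m_i' (mod q)` for all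
`i`. For large `p` (depending on `θ`) this number has the expected order `x ^ (2p) q ^ (1-p) x ^ (-d)` up to powers of the
logarithm and of the divisor function of `q`, by Weyl differencing of `∑_{m ≡ m'} e(β (f(m') - f(m)))` (the first difference is
a multiple of `q`) and the divisor bound.
-/

set_option autoImplicit false

namespace Pool.Agent.Results.MP_e9eb55_nt.PolynomialValues
open Finset Polynomial

/-- the first weight, `μ(m)` -/
noncomputable def g₁ (m : ℕ) : ℝ := ((ArithmeticFunction.moebius m : ℤ) : ℝ)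

/-- the second weight, `μ(m) log m` -/
noncomputable def g₂ (m : ℕ) : ℝ := ((ArithmeticFunction.moebius m : ℤ) : ℝ) * Real.log m

/-- the sum of `Λ(n) g(N - n)` over `1 ≤ n < N` with `n ≡ N (mod q)` -/
noncomputable def twistedSum (g : ℕ → ℝ) (q N : ℕ) : ℝ :=
  ∑ n ∈ (Finset.Ico 1 N).filter (fun n => n ≡ N [MOD q]), ArithmeticFunction.vonMangoldt n * g (N - n)

/-- `D_g(N; θ)` for `Q = N ^ θ`: the sum over the moduli `1 ≤ q ≤ Q` coprime to `N` of the absolute value of
`twistedSum g q N - (1 / φ(q)) * twistedSum g 1 N` -/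
noncomputable def disc (g : ℕ → ℝ) (N : ℕ) (Q : ℝ) : ℝ :=
  ∑ q ∈ (Finset.Icc 1 ⌊Q⌋₊).filter (fun q => q.Coprime N),
    |twistedSum g q N - 1 / (Nat.totient q : ℝ) * twistedSum g 1 N|

open Classical in
/-- the number of the positive integers `m ≤ x` with the property `P` -/
noncomputable def num (x : ℕ) (P : ℕ → Prop) : ℕ := ((Finset.Icc 1 x).filter P).card

/-- **Theorem.** Let `f` be an integer polynomial of degree `d ≥ 2`, `0 < θ < 1 / d`, and let `A, U, W, B` be given. For large `x`
and every integer `c` with `|c| ≤ B x ^ d`, for all `m ≤ x` but `x / (log x) ^ U` the bound `D_g(N; θ) ≤ N / (log N) ^ A` holds for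
both weights `g` and ALL natural numbers `N` with `|N - (c + f(m))| ≤ (log x) ^ W`. -/
theorem result (f : ℤ[X]) (hd : 2 ≤ f.natDegree) (θ : ℝ) (h0 : 0 < θ) (hθ : θ * f.natDegree < 1) (A U W B : ℕ) :
    ∃ x0 : ℕ, ∀ x : ℕ, x0 ≤ x → ∀ c : ℤ, |c| ≤ B * (x : ℤ) ^ f.natDegree →
      (num x (fun m => ∃ N : ℕ, |(N : ℝ) - ((c + f.eval (m : ℤ) : ℤ) : ℝ)| ≤ Real.log x ^ W ∧
        ∃ g : ℕ → ℝ, (g = g₁ ∨ g = g₂) ∧ (N : ℝ) / Real.log N ^ A < disc g N ((N : ℝ) ^ θ)) : ℝ) ≤ x / Real.log x ^ U := by
  classical
  obtain ⟨x0, h⟩ := Pool.Agent.U856.DE.poly_abs f hd θ h0 hθ A U W B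
  refine ⟨x0, fun x hx c hc => ?_⟩
  refine le_trans ?_ (h x hx c hc)
  unfold num
  norm_cast

end Pool.Agent.Results.MP_e9eb55_nt.PolynomialValues
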