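import Pool.Agent.U585.SK.Eh

/-!
# MP_e9eb55_nt: the diagonal Moebius-twisted Elliott-Halberstam bounds in the random model of `μ`

In the random model of the Moebius function the values `μ(p) = -1` are replaced by independent
random signs `f p` (each sign with probability `1/2`) and `μ` by the random function supported on the
squarefree integers with the value `∏_{p ∣ n} f p` at `n`; the von Mangoldt function is the true one.
Almost surely the sum `D_g(N; Q)` of the problem (moduli up to `Q`) is at most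
`C N^ε (N Q)^(1/2)` for all `N` and all `1 ≤ Q ≤ N`, for both weights `g`; in particular dEH holds at
all levels `N^θ`, `θ < 1`, with a power saving. More generally, for all sequences `b`, `w` of growth
`n^ε`, almost surely the sums of `b(n) w(k-n) f(k-n)` and of `b(n) w(n+k) f(n+k)` over the `n < y` in
any residue class modulo `q` are at most `C N^ε (N/q + 1)^(1/2)`, for *all* moduli, residue classes,
initial segments and shifts.

Outline. Hypercontractivity for the multilinear polynomials in the signs, of degree `O(log N/log log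
N)`, a union bound over the `N^{O(1)}` sums and Borel-Cantelli; `1/φ(q) ≤ C q^(ε-1)`.
-/

set_option autoImplicit false

namespace Pool.Agent.Results.MP_e9eb55_nt.RandomModelDEH

open MeasureTheory Filter Topology ProbabilityTheory

/-- the function on the integers supported on the squarefree ones, with the value
`∏_{p ∣ n} s p` at `n`; for `s = -1` it is the Moebius function -/
noncomputable def mult (s : ℕ → ℝ) (n : ℕ) : ℝ :=
  open Classical in if Squarefree n then ∏ p ∈ n.primeFactors, s p else 0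

/-- the first weight, `(mult s)(m)` in the place of `μ(m)` -/
noncomputable def g₁ (s : ℕ → ℝ) (m : ℕ) : ℝ := mult s m

/-- the second weight, `(mult s)(m) log m` in the place of `μ(m) log m` -/
noncomputable def g₂ (s : ℕ → ℝ) (m : ℕ) : ℝ := mult s m * Real.log m

/-- the sum of `Λ(n) g(N - n)` over `1 ≤ n < N` with `n ≡ N (mod q)` -/
noncomputable def twistedSum (g : ℕ → ℝ) (q N : ℕ) : ℝ :=
  ∑ n ∈ (Finset.Ico 1 N).filter (fun n => n ≡ N [MOD q]),
    ArithmeticFunction.vonMangoldt n * g (N - n)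

/-- the sum over the moduli `1 ≤ q ≤ Q` coprime to `N` of the absolute value of
`twistedSum g q N - (1 / φ(q)) * twistedSum g 1 N` -/
noncomputable def disc (g : ℕ → ℝ) (N : ℕ) (Q : ℝ) : ℝ :=
  ∑ q ∈ (Finset.Icc 1 ⌊Q⌋₊).filter (fun q => q.Coprime N),
    |twistedSum g q N - 1 / (Nat.totient q : ℝ) * twistedSum g 1 N|

/-- sequences of growth at most `n^ε` for every `ε > 0` -/
def Slow (b : ℕ → ℝ) : Prop := ∀ ε : ℝ, 0 < ε → ∃ K : ℝ, ∀ n : ℕ, 1 ≤ n → |b n| ≤ K * (n : ℝ) ^ ε

/-- The diagonal Moebius-twisted Elliott-Halberstam bounds in the random model of the Moebius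
function. The first statement says that `mult` is the Moebius function for `s = -1`. -/
theorem result :
    (∀ n : ℕ, mult (fun _ => -1) n = ((ArithmeticFunction.moebius n : ℤ) : ℝ)) ∧
    ∀ (Ω : Type) [MeasurableSpace Ω] (P : Measure Ω) [IsProbabilityMeasure P]
      (f : ℕ → Ω → ℝ), (∀ p, Measurable (f p)) → iIndepFun f P →
      (∀ p ω, f p ω = 1 ∨ f p ω = -1) → (∀ p, ∫ ω, f p ω ∂P = 0) →
      (∀ᵐ ω ∂P,
        (∀ ε : ℝ, 0 < ε → ∃ C : ℝ, ∀ N : ℕ, 1 ≤ N → ∀ Q : ℝ, 1 ≤ Q → Q ≤ N → ∀ g : ℕ → ℝ,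
          (g = g₁ (fun p => f p ω) ∨ g = g₂ (fun p => f p ω)) →
            disc g N Q ≤ C * (N : ℝ) ^ ε * Real.sqrt (N * Q)) ∧
        (∀ θ : ℝ, 0 < θ → θ < 1 → ∀ A : ℝ, 0 < A → ∃ C : ℝ, ∀ N : ℕ, 2 ≤ N → ∀ g : ℕ → ℝ,
          (g = g₁ (fun p => f p ω) ∨ g = g₂ (fun p => f p ω)) →
            disc g N ((N : ℝ) ^ θ) ≤ C * N * Real.log N ^ (-A))) ∧
      ∀ b w : ℕ → ℝ, Slow b → Slow w → ∀ᵐ ω ∂P, ∀ ε : ℝ, 0 < ε → ∃ C : ℝ, ∀ N : ℕ, 1 ≤ N →
        ∀ k y q a : ℕ, 1 ≤ q → y ≤ N →
          (y ≤ k → k ≤ N →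
            |∑ n ∈ (Finset.Ico 1 y).filter (fun n => n ≡ a [MOD q]),
              b n * w (k - n) * mult (fun p => f p ω) (k - n)| ≤
                C * (N : ℝ) ^ ε * Real.sqrt ((N : ℝ) / q + 1)) ∧
          (y + k ≤ N →
            |∑ n ∈ (Finset.Ico 1 y).filter (fun n => n ≡ a [MOD q]),
              b n * w (n + k) * mult (fun p => f p ω) (n + k)| ≤
                C * (N : ℝ) ^ ε * Real.sqrt ((N : ℝ) / q + 1)) := by
  refine ⟨fun n => ?_, fun Ω _ P _ f hmeas hind hval hmean => ⟨?_, ?_⟩⟩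
  · unfold mult
    by_cases h : Squarefree n
    · have h1 : n.primeFactors.card = n.primeFactorsList.length := by
        have := List.card_toFinset n.primeFactorsList
        rw [(Squarefree.nodup_primeFactorsList h).dedup] at this
        exact this
      rw [if_pos h, ArithmeticFunction.moebius_apply_of_squarefree h, Finset.prod_const,
        ArithmeticFunction.cardFactors_apply, h1]
      push_cast
      rfl
    · rw [if_neg h, ArithmeticFunction.moebius_eq_zero_of_not_squarefree h]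
      simp
  · have hS : Pool.Agent.U585.GC.Signs P f := ⟨hmeas, hind, hval, hmean⟩
    have hlogslow : Slow fun n => Real.log n := by
      intro ε hε
      refine ⟨1 / ε, fun n hn => ?_⟩
      have hn1 : (1 : ℝ) ≤ n := by exact_mod_cast hn
      rw [abs_of_nonneg (Real.log_nonneg hn1), one_div_mul_eq_div]
      exact Real.log_le_rpow_div (by linarith) hε
    have hΛ : Slow fun n => ArithmeticFunction.vonMangoldt n := by
      intro ε hε
      obtain ⟨K, hK⟩ := hlogslow ε hε
      refine ⟨K, fun n hn => ?_⟩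
      rw [abs_of_nonneg ArithmeticFunction.vonMangoldt_nonneg]
      exact ArithmeticFunction.vonMangoldt_le_log.trans ((le_abs_self _).trans (hK n hn))
    have hone : Slow fun _ => 1 := by
      intro ε hε
      refine ⟨1, fun n hn => ?_⟩
      have hn1 : (1 : ℝ) ≤ n := by exact_mod_cast hn
      rw [abs_one, one_mul]
      exact Real.one_le_rpow hn1 hε.le
    filter_upwards [Pool.Agent.U585.SK.shift hS hΛ hone, Pool.Agent.U585.SK.shift hS hΛ hlogslow]
      with ω h1 h2
    -- the sums in the progressions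
    have htw : ∀ ε : ℝ, 0 < ε → ∃ C : ℝ, 0 < C ∧ ∀ N : ℕ, 1 ≤ N → ∀ q : ℕ, 1 ≤ q → q ≤ N →
        ∀ g : ℕ → ℝ, (g = g₁ (fun p => f p ω) ∨ g = g₂ (fun p => f p ω)) →
          |twistedSum g q N| ≤ C * (N : ℝ) ^ ε * (Real.sqrt N / Real.sqrt q) := by
      intro ε hε
      obtain ⟨C₁, hC₁, h1⟩ := h1 ε hε
      obtain ⟨C₂, hC₂, h2⟩ := h2 ε hε
      refine ⟨2 * (C₁ + C₂), by positivity, fun N hN q hq hqN g hg => ?_⟩
      have hq0 : (0 : ℝ) < q := by exact_mod_cast hq
      have hNq : (q : ℝ) ≤ N := by exact_mod_cast hqN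
      have hs : Real.sqrt ((N : ℝ) / q + 1) ≤ 2 * (Real.sqrt N / Real.sqrt q) := by
        rw [← Real.sqrt_div (Nat.cast_nonneg _)]
        have h3 : (N : ℝ) / q + 1 ≤ 2 ^ 2 * ((N : ℝ) / q) := by
          have : 1 ≤ (N : ℝ) / q := by rw [one_le_div hq0]; exact hNq
          linarith
        calc Real.sqrt ((N : ℝ) / q + 1) ≤ Real.sqrt (2 ^ 2 * ((N : ℝ) / q)) :=
              Real.sqrt_le_sqrt h3
          _ = _ := by rw [Real.sqrt_mul (by norm_num), Real.sqrt_sq (by norm_num)]
      have hpos : 0 ≤ (N : ℝ) ^ ε * (Real.sqrt N / Real.sqrt q) := by positivity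
      rcases hg with rfl | rfl
      · have h4 := h1 N hN true N N q N hq le_rfl ⟨le_rfl, le_rfl⟩
        have e : twistedSum (g₁ fun p => f p ω) q N = ∑ n ∈ Pool.Agent.U585.SK.tm N q N,
            ArithmeticFunction.vonMangoldt n * (1 : ℝ) *
              Pool.Agent.U585.GC.rf (fun p => f p ω) (Pool.Agent.U585.SK.sft true N n) := by
          unfold twistedSum g₁
          refine Finset.sum_congr rfl fun n _ => ?_
          rw [mul_one]
          rfl
        rw [e]
        refine h4.trans ?_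
        calc C₁ * (N : ℝ) ^ ε * Real.sqrt ((N : ℝ) / q + 1)
            ≤ C₁ * (N : ℝ) ^ ε * (2 * (Real.sqrt N / Real.sqrt q)) :=
              mul_le_mul_of_nonneg_left hs (by positivity)
          _ ≤ _ := by nlinarith
      · have h4 := h2 N hN true N N q N hq le_rfl ⟨le_rfl, le_rfl⟩
        have e : twistedSum (g₂ fun p => f p ω) q N = ∑ n ∈ Pool.Agent.U585.SK.tm N q N,
            ArithmeticFunction.vonMangoldt n * Real.log (Pool.Agent.U585.SK.sft true N n : ℕ) *
              Pool.Agent.U585.GC.rf (fun p => f p ω) (Pool.Agent.U585.SK.sft true N n) := by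
          unfold twistedSum g₂
          refine Finset.sum_congr rfl fun n _ => ?_
          rw [mul_assoc, mul_comm (Real.log _)]
          rfl
        rw [e]
        refine h4.trans ?_
        calc C₂ * (N : ℝ) ^ ε * Real.sqrt ((N : ℝ) / q + 1)
            ≤ C₂ * (N : ℝ) ^ ε * (2 * (Real.sqrt N / Real.sqrt q)) :=
              mul_le_mul_of_nonneg_left hs (by positivity)
          _ ≤ _ := by nlinarith
    have hmain : ∀ ε : ℝ, 0 < ε → ∃ C : ℝ, 0 < C ∧ ∀ N : ℕ, 1 ≤ N → ∀ Q : ℝ, 1 ≤ Q → Q ≤ N →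
        ∀ g : ℕ → ℝ, (g = g₁ (fun p => f p ω) ∨ g = g₂ (fun p => f p ω)) →
          disc g N Q ≤ C * (N : ℝ) ^ ε * Real.sqrt (N * Q) := by
      intro ε hε
      obtain ⟨C, hC, htw⟩ := htw (ε / 2) (by linarith)
      obtain ⟨K, hK, htot⟩ := Pool.Agent.U585.SK.inv_totient (ε / 2) (by linarith)
      refine ⟨2 * (C + K * C), by positivity, fun N hN Q hQ hQN g hg => ?_⟩
      have hN1 : (1 : ℝ) ≤ N := by exact_mod_cast hN
      have hN0 : (0 : ℝ) < N := by linarith
      have hterm : ∀ q ∈ (Finset.Icc 1 ⌊Q⌋₊).filter (fun q => q.Coprime N),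
          |twistedSum g q N - 1 / (Nat.totient q : ℝ) * twistedSum g 1 N| ≤
            (C + K * C) * (N : ℝ) ^ ε * Real.sqrt N * (1 / Real.sqrt q) := by
        intro q hq
        rw [Finset.mem_filter, Finset.mem_Icc] at hq
        have hqQ : (q : ℝ) ≤ Q := (Nat.le_floor_iff (by linarith)).1 hq.1.2
        have hqN : q ≤ N := by exact_mod_cast hqQ.trans hQN
        have hq1 : (1 : ℝ) ≤ q := by exact_mod_cast hq.1.1
        have hq0 : (0 : ℝ) < q := by linarith
        have h3 := htw N hN q hq.1.1 hqN g hg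
        have h4 := htw N hN 1 le_rfl hN g hg
        have h5 := htot q hq.1.1
        rw [Nat.cast_one, Real.sqrt_one, div_one] at h4
        have hε2 : (N : ℝ) ^ (ε / 2) ≤ (N : ℝ) ^ ε :=
          Real.rpow_le_rpow_of_exponent_le hN1 (by linarith)
        have hqε : (q : ℝ) ^ (ε / 2) ≤ (N : ℝ) ^ (ε / 2) :=
          Real.rpow_le_rpow hq0.le (by exact_mod_cast hqN) (by linarith)
        have hNN : (N : ℝ) ^ (ε / 2) * (N : ℝ) ^ (ε / 2) = (N : ℝ) ^ ε := by
          rw [← Real.rpow_add hN0]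
          congr 1
          ring
        have hsq : 1 / (q : ℝ) ≤ 1 / Real.sqrt q := by
          refine one_div_le_one_div_of_le (Real.sqrt_pos.2 hq0) ?_
          rw [Real.sqrt_le_left hq0.le]
          nlinarith
        have h6 : |twistedSum g q N| ≤ C * (N : ℝ) ^ ε * Real.sqrt N * (1 / Real.sqrt q) := by
          refine h3.trans ?_
          calc C * (N : ℝ) ^ (ε / 2) * (Real.sqrt N / Real.sqrt q)
              ≤ C * (N : ℝ) ^ ε * (Real.sqrt N / Real.sqrt q) :=
                mul_le_mul_of_nonneg_right (mul_le_mul_of_nonneg_left hε2 hC.le) (by positivity)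
            _ = _ := by ring
        have h7 : |1 / (Nat.totient q : ℝ) * twistedSum g 1 N| ≤
            K * C * (N : ℝ) ^ ε * Real.sqrt N * (1 / Real.sqrt q) := by
          rw [abs_mul, abs_of_nonneg (by positivity : (0 : ℝ) ≤ 1 / (Nat.totient q : ℝ))]
          calc 1 / (Nat.totient q : ℝ) * |twistedSum g 1 N|
              ≤ (K * (q : ℝ) ^ (ε / 2) / q) * (C * (N : ℝ) ^ (ε / 2) * Real.sqrt N) :=
                mul_le_mul h5 h4 (abs_nonneg _) (by positivity)
            _ = K * C * ((q : ℝ) ^ (ε / 2) * (N : ℝ) ^ (ε / 2)) * Real.sqrt N * (1 / q) := by ring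
            _ ≤ K * C * ((N : ℝ) ^ (ε / 2) * (N : ℝ) ^ (ε / 2)) * Real.sqrt N *
                (1 / Real.sqrt q) := by
                refine mul_le_mul ?_ hsq (by positivity) (by positivity)
                refine mul_le_mul_of_nonneg_right ?_ (Real.sqrt_nonneg _)
                refine mul_le_mul_of_nonneg_left ?_ (by positivity)
                exact mul_le_mul_of_nonneg_right hqε (by positivity)
            _ = _ := by rw [hNN]
        refine (abs_sub _ _).trans ((add_le_add h6 h7).trans (le_of_eq ?_))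
        ring
      unfold disc
      refine (Finset.sum_le_sum hterm).trans ?_
      rw [← Finset.mul_sum]
      have h8 : ∑ q ∈ (Finset.Icc 1 ⌊Q⌋₊).filter (fun q => q.Coprime N), 1 / Real.sqrt (q : ℝ) ≤
          2 * Real.sqrt Q := by
        calc _ ≤ ∑ q ∈ Finset.Icc 1 ⌊Q⌋₊, 1 / Real.sqrt (q : ℝ) :=
              Finset.sum_le_sum_of_subset_of_nonneg (Finset.filter_subset _ _)
                fun q _ _ => by positivity
          _ ≤ 2 * Real.sqrt (⌊Q⌋₊ : ℕ) := Pool.Agent.U585.SK.sum_inv_sqrt _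
          _ ≤ _ := by
              refine mul_le_mul_of_nonneg_left ?_ (by norm_num)
              exact Real.sqrt_le_sqrt (Nat.floor_le (by linarith))
      calc (C + K * C) * (N : ℝ) ^ ε * Real.sqrt N *
            ∑ q ∈ (Finset.Icc 1 ⌊Q⌋₊).filter (fun q => q.Coprime N), 1 / Real.sqrt (q : ℝ)
          ≤ (C + K * C) * (N : ℝ) ^ ε * Real.sqrt N * (2 * Real.sqrt Q) :=
            mul_le_mul_of_nonneg_left h8 (by positivity)
        _ = _ := by
            rw [Real.sqrt_mul hN0.le]
            ring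
    refine ⟨fun ε hε => ?_, fun θ hθ0 hθ1 A hA => ?_⟩
    · obtain ⟨C, _, h⟩ := hmain ε hε
      exact ⟨C, h⟩
    · obtain ⟨C, hC, h⟩ := hmain ((1 - θ) / 4) (by linarith)
      set δ := (1 - θ) / 4 / A with hδ
      have hδ0 : 0 < δ := by
        rw [hδ]
        have : 0 < 1 - θ := by linarith
        positivity
      refine ⟨C * (1 / δ) ^ A, fun N hN g hg => ?_⟩
      have hN1 : (1 : ℝ) < N := by exact_mod_cast (show 1 < N by omega)
      have hN0 : (0 : ℝ) < N := by linarith
      have h1 := h N (by omega) ((N : ℝ) ^ θ) (Real.one_le_rpow hN1.le hθ0.le) (by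
        calc (N : ℝ) ^ θ ≤ (N : ℝ) ^ (1 : ℝ) :=
              Real.rpow_le_rpow_of_exponent_le hN1.le hθ1.le
          _ = N := Real.rpow_one _) g hg
      refine h1.trans ?_
      have h2 : Real.sqrt (N * (N : ℝ) ^ θ) = (N : ℝ) ^ ((1 + θ) / 2) := by
        rw [Real.sqrt_eq_rpow]
        have : (N : ℝ) * (N : ℝ) ^ θ = (N : ℝ) ^ (1 + θ) := by
          rw [Real.rpow_add hN0, Real.rpow_one]
        rw [this, ← Real.rpow_mul hN0.le]
        congr 1
        ring
      have hlog : 0 < Real.log N := Real.log_pos hN1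
      have h3 : Real.log N ^ A ≤ (1 / δ) ^ A * (N : ℝ) ^ ((1 - θ) / 4) := by
        have h4 : Real.log N ≤ (1 / δ) * (N : ℝ) ^ δ := by
          have := Real.log_le_rpow_div hN0.le hδ0
          calc Real.log N ≤ (N : ℝ) ^ δ / δ := this
            _ = _ := by ring
        calc Real.log N ^ A ≤ ((1 / δ) * (N : ℝ) ^ δ) ^ A :=
              Real.rpow_le_rpow hlog.le h4 hA.le
          _ = (1 / δ) ^ A * (N : ℝ) ^ ((1 - θ) / 4) := by
              rw [Real.mul_rpow (by positivity) (by positivity), ← Real.rpow_mul hN0.le]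
              congr 2
              rw [hδ]
              field_simp
      have h5 : 1 ≤ (1 / δ) ^ A * (N : ℝ) ^ ((1 - θ) / 4) * Real.log N ^ (-A) := by
        rw [Real.rpow_neg hlog.le, ← div_eq_mul_inv, one_le_div (by positivity)]
        exact h3
      rw [h2]
      calc C * (N : ℝ) ^ ((1 - θ) / 4) * (N : ℝ) ^ ((1 + θ) / 2)
          = C * (N : ℝ) ^ ((1 - θ) / 4) * (N : ℝ) ^ ((1 + θ) / 2) * 1 := by ring
        _ ≤ C * (N : ℝ) ^ ((1 - θ) / 4) * (N : ℝ) ^ ((1 + θ) / 2) *
            ((1 / δ) ^ A * (N : ℝ) ^ ((1 - θ) / 4) * Real.log N ^ (-A)) :=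
            mul_le_mul_of_nonneg_left h5 (by positivity)
        _ = C * (1 / δ) ^ A * ((N : ℝ) ^ ((1 - θ) / 4) * (N : ℝ) ^ ((1 + θ) / 2) *
            (N : ℝ) ^ ((1 - θ) / 4)) * Real.log N ^ (-A) := by ring
        _ = _ := by
            rw [← Real.rpow_add hN0, ← Real.rpow_add hN0,
              show (1 - θ) / 4 + (1 + θ) / 2 + (1 - θ) / 4 = 1 by ring, Real.rpow_one]
  · intro b w hb hw
    have hS : Pool.Agent.U585.GC.Signs P f := ⟨hmeas, hind, hval, hmean⟩
    filter_upwards [Pool.Agent.U585.SK.shift hS (b := b) (w := w) hb hw] with ω h ε hε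
    obtain ⟨C, _, h⟩ := h ε hε
    refine ⟨C, fun N hN k y q a hq hy => ⟨fun h1 h2 => ?_, fun h1 => ?_⟩⟩
    · exact h N hN true k y q a hq hy ⟨h1, h2⟩
    · exact h N hN false k y q a hq hy h1

end Pool.Agent.Results.MP_e9eb55_nt.RandomModelDEH
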